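import Pool.Agent.W201.NT.StmT

/-!
# Vanishing of the homology of open subsets of `Y × ℝ`
-/

set_option autoImplicit false

open Set Topology Filter

namespace Pool.Agent.W563.NT.PR

open Pool.Agent.Helper381 Pool.Agent.W201.NT

/-! ### Basic facts -/

lemma van_empty (X : Type) [TopologicalSpace X] (hX : X → False) (n : ℕ) : Van X n := by
  intro z _
  have h1 : IsEmpty (Sing X n) := ⟨fun σ => hX (σ (stdSimplex.barycenter))⟩
  have h2 : z = 0 := by
    ext σ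
    exact h1.elim σ
  rw [h2]
  exact Submodule.zero_mem _

lemma van_equiv (hi : S_HI) {X Y : Type} [TopologicalSpace X] [TopologicalSpace Y] (f : C(X, Y))
    (g : C(Y, X)) (h : ∀ y, f (g y) = y) (n : ℕ) (hV : Van X n) : Van Y n := by
  refine hi X Y f g ?_ n hV
  have h1 : f.comp g = ContinuousMap.id Y := by
    ext y
    exact h y
  rw [h1]

/-- finite disjoint unions of open sets -/
lemma van_biUnion (mvs : S_MVS) {X : Type} [TopologicalSpace X] {ι : Type} [DecidableEq ι]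
    (A : ι → Set X) (hA : ∀ i, IsOpen (A i)) (n : ℕ) (F : Finset ι)
    (hd : ∀ i ∈ F, ∀ j ∈ F, i ≠ j → Disjoint (A i) (A j))
    (hV : ∀ i ∈ F, Van ↥(A i) (n + 1)) : Van ↥(⋃ i ∈ F, A i) (n + 1) := by
  induction F using Finset.induction_on with
  | empty =>
    refine van_empty _ (fun x => ?_) _
    have := x.2
    simp at this
  | insert i F hi ih =>
    rw [Finset.set_biUnion_insert]
    refine mvs X (A i) (⋃ j ∈ F, A j) (hA i) (isOpen_biUnion fun j _ => hA j) n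
      (hV i (Finset.mem_insert_self i F)) (ih (fun j hj l hl => hd j (Finset.mem_insert_of_mem hj) l
        (Finset.mem_insert_of_mem hl)) fun j hj => hV j (Finset.mem_insert_of_mem hj)) ?_
    refine van_empty _ (fun x => ?_) _
    obtain ⟨h1, h2⟩ := x.2
    obtain ⟨j, hj, h3⟩ := mem_iUnion₂.1 h2
    have h4 := hd i (Finset.mem_insert_self i F) j (Finset.mem_insert_of_mem hj)
      (fun h => hi (h ▸ hj))
    exact Set.disjoint_left.1 h4 h1 h3

/-! ### Slabs -/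

section slab
variable {Y : Type} [TopologicalSpace Y] (V : Set Y) (a b : ℝ)

/-- the inclusion of `V` in the slab -/
noncomputable def inc (hab : a < b) : C(↥V, ↥(V ×ˢ Ioo a b)) where
  toFun y := ⟨(y.1, (a + b) / 2), ⟨y.2, ⟨by linarith, by linarith⟩⟩⟩
  continuous_toFun := by fun_prop

/-- the projection of the slab -/
def prj : C(↥(V ×ˢ Ioo a b), ↥V) where
  toFun p := ⟨p.1.1, p.2.1⟩
  continuous_toFun := by fun_prop

/-- the straight line homotopy -/
noncomputable def hom (hab : a < b) :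
    ContinuousMap.Homotopy ((inc V a b hab).comp (prj V a b)) (ContinuousMap.id _) where
  toFun p := ⟨(p.2.1.1, (1 - (p.1 : ℝ)) * ((a + b) / 2) + (p.1 : ℝ) * p.2.1.2), by
    obtain ⟨⟨t, ht⟩, ⟨⟨y, s⟩, hy, hs1, hs2⟩⟩ := p
    refine ⟨hy, ?_, ?_⟩
    · simp only
      have h1 := ht.1
      have h2 := ht.2
      rcases eq_or_lt_of_le h1 with h3 | h3
      · rw [← h3]
        linarith
      · have h4 : t * a < t * s := mul_lt_mul_of_pos_left hs1 h3
        have h5 : (1 - t) * a ≤ (1 - t) * ((a + b) / 2) :=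
          mul_le_mul_of_nonneg_left (by linarith) (by linarith)
        linarith
    · simp only
      have h1 := ht.1
      have h2 := ht.2
      rcases eq_or_lt_of_le h1 with h3 | h3
      · rw [← h3]
        linarith
      · have h4 : t * s < t * b := mul_lt_mul_of_pos_left hs2 h3
        have h5 : (1 - t) * ((a + b) / 2) ≤ (1 - t) * b :=
          mul_le_mul_of_nonneg_left (by linarith) (by linarith)
        linarith⟩
  continuous_toFun := by fun_prop
  map_zero_left p := by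
    apply Subtype.ext
    simp [inc, prj]
  map_one_left p := by
    apply Subtype.ext
    simp

end slab

lemma van_slab (hi : S_HI) {Y : Type} [TopologicalSpace Y] (V : Set Y) (a b : ℝ) (n : ℕ)
    (hV : Van ↥V n) : Van ↥(V ×ˢ Ioo a b) n := by
  rcases lt_or_ge a b with hab | hab
  · exact hi _ _ (inc V a b hab) (prj V a b) ⟨hom V a b hab⟩ n hV
  · refine van_empty _ (fun x => ?_) n
    obtain ⟨-, h1, h2⟩ := x.2
    linarith

/-! ### Unions of slabs -/

section slabs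
variable {Y : Type} [TopologicalSpace Y] (V : ℤ → Set Y) (h : ℝ)

/-- the `k`-th slab -/
def Sl (k : ℤ) : Set (Y × ℝ) := V k ×ˢ Ioo (k * h - h / 4) ((k + 1) * h + h / 4)

lemma sl_open (hV : ∀ k, IsOpen (V k)) (k : ℤ) : IsOpen (Sl V h k) := (hV k).prod isOpen_Ioo

omit [TopologicalSpace Y] in
lemma sl_disj (hh : 0 < h) {k j : ℤ} (hkj : k + 2 ≤ j) : Disjoint (Sl V h k) (Sl V h j) := by
  rw [Set.disjoint_left]
  rintro ⟨y, t⟩ ⟨-, -, h1⟩ ⟨-, h2, -⟩
  simp only at h1 h2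
  have h3 : (k : ℝ) + 2 ≤ j := by exact_mod_cast hkj
  nlinarith

omit [TopologicalSpace Y] in
lemma sl_disj' (hh : 0 < h) {k j : ℤ} (hne : k ≠ j) (hkj : k % 2 = j % 2) :
    Disjoint (Sl V h k) (Sl V h j) := by
  rcases lt_or_gt_of_ne hne with h1 | h1
  · exact sl_disj V h hh (by omega)
  · exact (sl_disj V h hh (by omega)).symm

lemma van_slabs (hi : S_HI) (mvs : S_MVS) (hV : ∀ k, IsOpen (V k)) (hh : 0 < h) (n : ℕ)
    (hv : ∀ k j, Van ↥(V k ∩ V j) (n + 1)) (hv2 : ∀ k, Van ↥(V k) (n + 2)) (F : Finset ℤ) :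
    Van ↥(⋃ k ∈ F, Sl V h k) (n + 2) := by
  classical
  set E := F.filter fun k => k % 2 = 0 with hE
  set O := F.filter fun k => k % 2 = 1 with hO
  have hEO : (⋃ k ∈ F, Sl V h k) = (⋃ k ∈ E, Sl V h k) ∪ ⋃ k ∈ O, Sl V h k := by
    ext x
    simp only [mem_iUnion, mem_union, exists_prop, hE, hO, Finset.mem_filter]
    constructor
    · rintro ⟨k, hk, hx⟩
      rcases Int.emod_two_eq_zero_or_one k with h1 | h1
      · exact Or.inl ⟨k, ⟨hk, h1⟩, hx⟩
      · exact Or.inr ⟨k, ⟨hk, h1⟩, hx⟩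
    · rintro (⟨k, ⟨hk, -⟩, hx⟩ | ⟨k, ⟨hk, -⟩, hx⟩)
      · exact ⟨k, hk, hx⟩
      · exact ⟨k, hk, hx⟩
  have hI : (⋃ k ∈ E, Sl V h k) ∩ (⋃ k ∈ O, Sl V h k) =
      ⋃ p ∈ E ×ˢ O, Sl V h p.1 ∩ Sl V h p.2 := by
    ext x
    simp only [mem_iUnion, mem_inter_iff, exists_prop, Finset.mem_product]
    constructor
    · rintro ⟨⟨k, hk, hx⟩, ⟨j, hj, hx'⟩⟩
      exact ⟨(k, j), ⟨hk, hj⟩, hx, hx'⟩
    · rintro ⟨p, ⟨hk, hj⟩, hx, hx'⟩
      exact ⟨⟨p.1, hk, hx⟩, ⟨p.2, hj, hx'⟩⟩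
  have hmod0 : ∀ k ∈ E, k % 2 = 0 := fun k hk => (Finset.mem_filter.1 hk).2
  have hmod1 : ∀ k ∈ O, k % 2 = 1 := fun k hk => (Finset.mem_filter.1 hk).2
  rw [hEO]
  refine mvs _ (⋃ k ∈ E, Sl V h k) (⋃ k ∈ O, Sl V h k) (isOpen_biUnion fun k _ => sl_open V h hV k)
    (isOpen_biUnion fun k _ => sl_open V h hV k) (n + 1) ?_ ?_ ?_
  · refine van_biUnion mvs _ (sl_open V h hV) (n + 1) E (fun k hk j hj hne => ?_) fun k _ =>
      van_slab hi _ _ _ _ (hv2 k)
    exact sl_disj' V h hh hne (by rw [hmod0 k hk, hmod0 j hj])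
  · refine van_biUnion mvs _ (sl_open V h hV) (n + 1) O (fun k hk j hj hne => ?_) fun k _ =>
      van_slab hi _ _ _ _ (hv2 k)
    exact sl_disj' V h hh hne (by rw [hmod1 k hk, hmod1 j hj])
  · rw [hI]
    refine van_biUnion mvs (fun p : ℤ × ℤ => Sl V h p.1 ∩ Sl V h p.2)
      (fun p => (sl_open V h hV p.1).inter (sl_open V h hV p.2)) n (E ×ˢ O)
      (fun p hp q hq hne => ?_) fun p _ => ?_
    · rw [Finset.mem_product] at hp hq
      by_cases h1 : p.1 = q.1
      · have h2 : p.2 ≠ q.2 := fun h2 => hne (Prod.ext h1 h2)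
        exact (sl_disj' V h hh h2 (by rw [hmod1 _ hp.2, hmod1 _ hq.2])).mono inter_subset_right
          inter_subset_right
      · exact (sl_disj' V h hh h1 (by rw [hmod0 _ hp.1, hmod0 _ hq.1])).mono inter_subset_left
          inter_subset_left
    · have h1 : Sl V h p.1 ∩ Sl V h p.2 = (V p.1 ∩ V p.2) ×ˢ
          Ioo (max (p.1 * h - h / 4) (p.2 * h - h / 4))
            (min ((p.1 + 1) * h + h / 4) ((p.2 + 1) * h + h / 4)) := by
        rw [Sl, Sl, Set.prod_inter_prod, Set.Ioo_inter_Ioo]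
      rw [h1]
      exact van_slab hi _ _ _ _ (hv _ _)

end slabs

/-! ### Compact subsets of open sets -/

lemma unif {Y : Type} [TopologicalSpace Y] {U : Set (Y × ℝ)} (hU : IsOpen U) {K : Set (Y × ℝ)}
    (hK : IsCompact K) (hKU : K ⊆ U) :
    ∃ h : ℝ, 0 < h ∧ ∀ p ∈ K, ∀ s : ℝ, |s - p.2| ≤ 2 * h → (p.1, s) ∈ U := by
  refine hK.induction_on (p := fun K => ∃ h : ℝ, 0 < h ∧ ∀ p ∈ K, ∀ s : ℝ, |s - p.2| ≤ 2 * h →
    (p.1, s) ∈ U) ⟨1, one_pos, by simp⟩ ?_ ?_ ?_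
  · rintro s t hst ⟨h, hh, H⟩
    exact ⟨h, hh, fun p hp => H p (hst hp)⟩
  · rintro s t ⟨h, hh, H⟩ ⟨h', hh', H'⟩
    refine ⟨min h h', lt_min hh hh', ?_⟩
    rintro p (hp | hp) r hr
    · exact H p hp r (hr.trans (by have := min_le_left h h'; linarith))
    · exact H' p hp r (hr.trans (by have := min_le_right h h'; linarith))
  · rintro ⟨y, t⟩ hp
    obtain ⟨A, B, hA, hy, hB, ht, hAB⟩ := mem_nhds_prod_iff'.1 (hU.mem_nhds (hKU hp))
    obtain ⟨ε, hε, hball⟩ := Metric.isOpen_iff.1 hB t ht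
    refine ⟨A ×ˢ Metric.ball t (ε / 2), mem_nhdsWithin_of_mem_nhds
      ((hA.prod Metric.isOpen_ball).mem_nhds ⟨hy, Metric.mem_ball_self (by positivity)⟩),
      ε / 8, by positivity, ?_⟩
    rintro ⟨y', t'⟩ ⟨hy', ht'⟩ s hs
    apply hAB
    refine ⟨hy', hball ?_⟩
    rw [Metric.mem_ball, Real.dist_eq] at ht' ⊢
    simp only at ht' hs
    have e : s - t = (s - t') + (t' - t) := by ring
    rw [e]
    refine (abs_add_le _ _).trans_lt ?_
    linarith

lemma open_tube {Y : Type} [TopologicalSpace Y] {U : Set (Y × ℝ)} (hU : IsOpen U) (a b : ℝ) :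
    IsOpen {y : Y | ∀ s ∈ Icc a b, (y, s) ∈ U} := by
  rw [isOpen_iff_eventually]
  intro y hy
  exact isCompact_Icc.eventually_forall_of_forall_eventually
    (P := fun y s => (y, s) ∈ U) fun s hs => hU.mem_nhds (hy s hs)

theorem main (hi : S_HI) (mvs : S_MVS) (cs : S_CS) : S_PR := by
  intro Y _ m hm hY U hU n hn
  obtain ⟨n, rfl⟩ : ∃ n', n = n' + 2 := ⟨n - 2, by omega⟩
  refine cs ↥U (n + 2) fun K hK => ?_
  have hK' : IsCompact (Subtype.val '' K) := hK.image continuous_subtype_val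
  obtain ⟨h, hh, H⟩ := unif hU hK' (by
    rintro _ ⟨x, -, rfl⟩
    exact x.2)
  obtain ⟨R, hR⟩ := (hK'.image continuous_snd).isBounded.exists_norm_le
  set V : ℤ → Set Y := fun k => {y | ∀ s ∈ Icc ((k : ℝ) * h - h / 4) ((k + 1) * h + h / 4),
    (y, s) ∈ U} with hV
  have hVo : ∀ k, IsOpen (V k) := fun k => open_tube hU _ _
  set F : Finset ℤ := Finset.Icc ⌊-R / h⌋ ⌊R / h⌋ with hF
  set P : Set (Y × ℝ) := ⋃ k ∈ F, Sl V h k with hP
  have hvP : Van ↥P (n + 2) := van_slabs V h hi mvs hVo hh n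
    (fun k j => hY _ ((hVo k).inter (hVo j)) _ (by omega)) (fun k => hY _ (hVo k) _ (by omega)) F
  have hPU : P ⊆ U := by
    rintro ⟨y, t⟩ hx
    obtain ⟨k, -, hy, ht1, ht2⟩ := mem_iUnion₂.1 hx
    exact hy t ⟨ht1.le, ht2.le⟩
  refine ⟨Subtype.val ⁻¹' P, ?_, ?_⟩
  · intro x hx
    have hxK : x.1 ∈ Subtype.val '' K := ⟨x, hx, rfl⟩
    have hxR := hR x.1.2 ⟨x.1, hxK, rfl⟩
    rw [Real.norm_eq_abs, abs_le] at hxR
    set k : ℤ := ⌊x.1.2 / h⌋ with hk
    have h1 : (k : ℝ) * h ≤ x.1.2 := by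
      have := Int.floor_le (x.1.2 / h)
      rwa [le_div_iff₀ hh] at this
    have h2 : x.1.2 < (k + 1) * h := by
      have := Int.lt_floor_add_one (x.1.2 / h)
      rwa [div_lt_iff₀ hh] at this
    refine mem_iUnion₂.2 ⟨k, ?_, ?_, ?_, ?_⟩
    · rw [hF, Finset.mem_Icc]
      exact ⟨Int.floor_le_floor (div_le_div_of_nonneg_right hxR.1 hh.le),
        Int.floor_le_floor (div_le_div_of_nonneg_right hxR.2 hh.le)⟩
    · intro s hs
      refine H x.1 hxK s ?_
      rw [abs_le]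
      constructor
      · linarith [hs.1]
      · linarith [hs.2]
    · change (k : ℝ) * h - h / 4 < x.1.2
      linarith
    · change x.1.2 < (k + 1) * h + h / 4
      linarith
  · refine van_equiv hi (X := ↥P) ⟨fun x => ⟨⟨x.1, hPU x.2⟩, x.2⟩, by fun_prop⟩
      ⟨fun x => ⟨x.1.1, x.2⟩, by fun_prop⟩ (fun y => rfl) _ hvP

end Pool.Agent.W563.NT.PR
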